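import Pool.Agent.Y811.PC.Stm

set_option autoImplicit false

/-! # A parabolic cycle of `z ^ d + c` with multiplier a primitive `q`-th root of unity has at
most `q` petals -/

namespace Pool.Agent.Y419.PC

open Complex Metric Set Filter Topology Pool.Agent.H712R2 Pool.Agent.H713R2 N62a1eb23
open Pool.Agent.Y736.HL Pool.Agent.Y736.ML Pool.Agent.Y811.PC

/-- the start of a petal can be rotated by roots of unity -/
theorem start_rot {g : ℂ → ℂ} {z₀ : ℂ} {ν : ℕ} {a : ℂ → ℂ} {A : ℂ} {κ R w₀ : ℝ} {u₀ : ℂ}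
    (s : Start g z₀ ν a A κ R w₀ u₀) {w : ℂ} (hw : w ^ ν = 1) :
    Start g z₀ ν a A κ R w₀ (u₀ * w) :=
  ⟨s.pet, s.κ0, s.κ1, s.kap, s.hA, s.hw, s.hw', by
    rw [W_mul, hw, inv_one, mul_one]; exact s.hu⟩

theorem fc_continuous (d : ℕ) (c : ℂ) : Continuous (fc d c) := by
  unfold fc
  fun_prop

theorem fc_differentiable (d : ℕ) (c : ℂ) : Differentiable ℂ (fc d c) := by
  unfold fc
  fun_prop

/-- residues -/
theorem arith {m q J J' : ℕ} (h1 : J % m = J' % m) (h2 : J % (m * q) / m = J' % (m * q) / m) :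
    J % (m * q) = J' % (m * q) := by
  have e1 : J % (m * q) % m = J % m := Nat.mod_mod_of_dvd J (Dvd.intro q rfl)
  have e2 : J' % (m * q) % m = J' % m := Nat.mod_mod_of_dvd J' (Dvd.intro q rfl)
  rw [← Nat.div_add_mod (J % (m * q)) m, ← Nat.div_add_mod (J' % (m * q)) m, e1, e2, h1, h2]

/-- two points of the critical orbit which are attracted to the same point of the cycle -/
theorem same_mod {d m q : ℕ} {c₀ z₀ : ℂ} (pd : PD d m q c₀ z₀) {N J J' : ℕ} (hJ : J ≤ J')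
    (h1 : Tendsto (fun n => ((fc d c₀)^[N])^[n] (P d J c₀)) atTop (𝓝 z₀))
    (h2 : Tendsto (fun n => ((fc d c₀)^[N])^[n] (P d J' c₀)) atTop (𝓝 z₀)) :
    J % m = J' % m := by
  obtain ⟨e, rfl⟩ := Nat.exists_eq_add_of_le hJ
  have hc : Continuous ((fc d c₀)^[e]) := (fc_continuous d c₀).iterate e
  have h3 : Tendsto (fun n => (fc d c₀)^[e] (((fc d c₀)^[N])^[n] (P d J c₀))) atTop
      (𝓝 ((fc d c₀)^[e] z₀)) := (hc.tendsto z₀).comp h1
  have h4 : (fun n => (fc d c₀)^[e] (((fc d c₀)^[N])^[n] (P d J c₀))) =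
      fun n => ((fc d c₀)^[N])^[n] (P d (J + e) c₀) := by
    funext n
    have e1 : P d (J + e) c₀ = (fc d c₀)^[e] (P d J c₀) := by
      unfold P
      rw [← Function.iterate_add_apply, Nat.add_comm e J]
    rw [e1, ← Function.iterate_mul, ← Function.iterate_add_apply, ← Function.iterate_add_apply,
      Nat.add_comm]
  rw [h4] at h3
  have h5 : (fc d c₀)^[e] z₀ = z₀ := tendsto_nhds_unique h3 h2
  have h6 : Function.IsPeriodicPt (fc d c₀) e z₀ := h5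
  have h7 : Function.IsPeriodicPt (fc d c₀) m z₀ := pd.fix
  have h8 : Function.IsPeriodicPt (fc d c₀) (e % m) z₀ := h6.mod h7
  have h9 : e % m = 0 := by
    by_contra hne
    exact pd.per (e % m) (Nat.pos_of_ne_zero hne) (Nat.mod_lt _ pd.hm) h8
  rw [Nat.add_mod, h9, Nat.add_zero, Nat.mod_mod]

/-- two points of the critical orbit which are in the same residue class modulo the period
belong to the same petal -/
theorem same_root (h2 : S_DIR) {d N : ℕ} {c₀ z₀ : ℂ} {ν : ℕ} {a : ℂ → ℂ} {A : ℂ} {κ R w₀ : ℝ}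
    {u₀ u₁ : ℂ} (s₀ : Start ((fc d c₀)^[N]) z₀ ν a A κ R w₀ u₀)
    (s₁ : Start ((fc d c₀)^[N]) z₀ ν a A κ R w₀ u₁) {J J' k k' : ℕ} (hJ : J ≤ J')
    (hmod : J % N = J' % N)
    (hv : ‖P d J c₀ - z₀ - Vo ((fc d c₀)^[N]) z₀ u₀ k‖ < κ * ‖Vo ((fc d c₀)^[N]) z₀ u₀ k‖)
    (hv' : ‖P d J' c₀ - z₀ - Vo ((fc d c₀)^[N]) z₀ u₁ k'‖ < κ * ‖Vo ((fc d c₀)^[N]) z₀ u₁ k'‖) :
    u₀ = u₁ := by
  obtain ⟨l, hl⟩ : ∃ l, J' = J + N * l := by
    have h3 : N ∣ J' - J := (Nat.modEq_iff_dvd' hJ).1 hmod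
    obtain ⟨l, hl⟩ := h3
    exact ⟨l, by omega⟩
  refine h2 _ z₀ ν a A κ R w₀ u₀ u₁ s₀ s₁ k k' l 0 (P d J c₀ - z₀) (P d J' c₀ - z₀) hv hv' ?_
  rw [Vo_zero]
  unfold Vo
  rw [add_sub_cancel, hl]
  congr 1
  unfold P
  rw [← Function.iterate_mul, ← Function.iterate_add_apply, Nat.add_comm]

theorem t_NULE (h1 : S_PET) (h2 : S_DIR) : S_NULE := by
  intro d m q c₀ z₀ pd ν a hν ha ha0 hev
  obtain ⟨N, hN⟩ : ∃ N, N = m * q := ⟨_, rfl⟩
  have hN1 : 1 ≤ N := by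
    rw [hN]
    exact Nat.mul_pos pd.hm pd.hq
  have hG : (G d m c₀)^[q] = (fc d c₀)^[N] := by
    rw [hN, Function.iterate_mul]
    rfl
  rw [hG] at hev
  have hfix : (fc d c₀)^[N] z₀ = z₀ := by
    rw [← hG]
    exact Function.iterate_fixed pd.fix q
  have hder : deriv ((fc d c₀)^[N]) z₀ = 1 := by
    rw [← hG]
    have hd : HasDerivAt (G d m c₀) (mu d m c₀ z₀) z₀ := by
      have : Differentiable ℂ (G d m c₀) := (fc_differentiable d c₀).iterate m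
      exact (this z₀).hasDerivAt
    have h3 := hd.iterate z₀ pd.fix q
    rw [pd.mul.pow_eq_one] at h3
    exact h3.deriv
  obtain ⟨A, κ, R, w₀, u₀, s⟩ := exists_start hν ha ha0 hev
  have hν0 : ν ≠ 0 := by omega
  obtain ⟨ζ, hζ⟩ : ∃ ζ : ℂ, IsPrimitiveRoot ζ ν := ⟨_, Complex.isPrimitiveRoot_exp ν hν0⟩
  have hroot : ∀ i : ℕ, (ζ ^ i) ^ ν = 1 := by
    intro i
    rw [← pow_mul, Nat.mul_comm, pow_mul, hζ.pow_eq_one, one_pow]
  have hst : ∀ i : ℕ, Start ((fc d c₀)^[N]) z₀ ν a A κ R w₀ (u₀ * ζ ^ i) := fun i =>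
    start_rot s (hroot i)
  have hpet : ∀ i : ℕ, ∃ k j, ‖P d j c₀ - z₀ - Vo ((fc d c₀)^[N]) z₀ (u₀ * ζ ^ i) k‖ <
      κ * ‖Vo ((fc d c₀)^[N]) z₀ (u₀ * ζ ^ i) k‖ := by
    intro i
    obtain ⟨k, j, _, hj⟩ := h1 d pd.hd c₀ z₀ N hN1 hfix hder ν a A κ R w₀ (u₀ * ζ ^ i) ha ha0
      (hst i)
    refine ⟨k, j, ?_⟩
    rw [mem_ball, dist_eq_norm] at hj
    rwa [sub_sub]
  choose K J hKJ using hpet
  have htend : ∀ i, Tendsto (fun n => ((fc d c₀)^[N])^[n] (P d (J i) c₀)) atTop (𝓝 z₀) := by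
    intro i
    have h3 := (hst i).disc (K i) (hKJ i)
    have h4 := (hst i).pet.tendsto_iter h3
    rwa [add_sub_cancel] at h4
  have hmod : ∀ i i', J i % m = J i' % m := by
    intro i i'
    rcases le_total (J i) (J i') with h | h
    · exact same_mod pd h (htend i) (htend i')
    · exact (same_mod pd h (htend i') (htend i)).symm
  by_contra hlt
  push Not at hlt
  have hmaps : ∀ i ∈ Finset.range ν, J i % (m * q) / m ∈ Finset.range q := by
    intro i _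
    rw [Finset.mem_range]
    refine Nat.div_lt_of_lt_mul ?_
    exact Nat.mod_lt _ (Nat.mul_pos pd.hm pd.hq)
  obtain ⟨i, hi, i', hi', hne, heq⟩ :=
    Finset.exists_ne_map_eq_of_card_lt_of_maps_to (by simpa using hlt) hmaps
  have hJJ : J i % N = J i' % N := by
    rw [hN]
    exact arith (hmod i i') heq
  have hu : u₀ * ζ ^ i = u₀ * ζ ^ i' := by
    rcases le_total (J i) (J i') with h | h
    · exact same_root h2 (hst i) (hst i') h hJJ (hKJ i) (hKJ i')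
    · exact (same_root h2 (hst i') (hst i) h hJJ.symm (hKJ i') (hKJ i)).symm
  have hζi : ζ ^ i = ζ ^ i' := mul_left_cancel₀ s.u0_ne hu
  exact hne (hζ.pow_inj (Finset.mem_range.1 hi) (Finset.mem_range.1 hi') hζi)

end Pool.Agent.Y419.PC
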